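import Pool.Agent.W670.TL.Defs

set_option autoImplicit false

/-! Part BIG of project TL -/

namespace Pool.Agent.W929.TL

open NumberField Pool.Agent.W670.TL Filter

theorem big (h1 : S_CHB) (h2 : S_CNT) : S_BIG := by
  intro n q ℓ Δ θ hn hq hcop hΔ hθ hw hsp ε hε
  have hq2 : (2 : ℝ) ≤ q := by exact_mod_cast hq.two_le
  have hn1 : (1 : ℝ) ≤ n := by exact_mod_cast hn
  obtain ⟨w, hwd⟩ : ∃ w : ℝ, w = 1 - n * (q - 1) * θ := ⟨_, rfl⟩
  have hw0 : 0 < w := by rw [hwd]; linarith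
  have hnq : 0 ≤ (n : ℝ) * (q - 1) := mul_nonneg (by linarith) (by linarith)
  have hw1 : w ≤ 1 := by
    rw [hwd]
    have := mul_nonneg hnq hθ
    linarith
  rw [← hwd]
  obtain ⟨E0, hE0⟩ : ∃ E0 : ℝ, E0 = q * Δ / w := ⟨_, rfl⟩
  have hE0n : 0 ≤ E0 := by rw [hE0]; positivity
  rw [← hE0]
  obtain ⟨μ, hμ⟩ : ∃ μ : ℝ, μ = ε / (2 * (Δ * (n * (q - 1)) + 1)) := ⟨_, rfl⟩
  have hden : 0 < Δ * ((n : ℝ) * (q - 1)) + 1 := by
    have := mul_nonneg hΔ hnq
    linarith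
  have hμ0 : 0 < μ := by rw [hμ]; positivity
  obtain ⟨η, hη⟩ : ∃ η : ℝ, η = q * θ / w + μ := ⟨_, rfl⟩
  have hη0 : μ ≤ η := by
    rw [hη]
    have : 0 ≤ q * θ / w := by positivity
    linarith
  have hηp : 0 < η := by linarith
  obtain ⟨G, hG⟩ : ∃ G : ℝ, G = q + n * (q - 1) * η := ⟨_, rfl⟩
  have hGp : 0 < G := by
    rw [hG]
    have := mul_nonneg hnq hηp.le
    linarith
  have hwη : w * η = q * θ + w * μ := by
    rw [hη]
    field_simp
  have hGθ : η - G * θ = w * μ := by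
    have h3 : G * θ = q * θ + (1 - w) * η := by
      rw [hG, hwd]
      ring
    rw [h3]
    linarith
  obtain ⟨κ, hκ⟩ : ∃ κ : ℝ, κ = (E0 + ε / 2) / G := ⟨_, rfl⟩
  have hGκ : G * κ = E0 + ε / 2 := by
    rw [hκ]
    field_simp
  have hκΔ : Δ < κ := by
    rw [hκ, lt_div_iff₀ hGp]
    have h3 : Δ * G = E0 + Δ * (n * (q - 1)) * μ := by
      have h4 : G * w = q + n * (q - 1) * (w * μ) := by
        have h5 : G * w = q * w + n * (q - 1) * (w * η) := by rw [hG]; ring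
        rw [h5, hwη]
        have h6 : (n : ℝ) * (q - 1) * θ = 1 - w := by rw [hwd]; ring
        linear_combination q * h6
      have h5 : G = q / w + n * (q - 1) * μ := by
        field_simp
        linarith
      rw [h5, hE0]
      ring
    rw [h3]
    have h4 : Δ * (n * (q - 1)) * μ < ε / 2 := by
      rw [hμ, mul_div_assoc', div_lt_div_iff₀ (by positivity) (by norm_num)]
      nlinarith
    linarith
  have hκ0 : 0 ≤ κ := hΔ.trans hκΔ.le
  obtain ⟨C, hC⟩ := hsp (κ - Δ) (by linarith)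
  rw [show Δ + (κ - Δ) = κ by ring] at hC
  obtain ⟨τ, hτ⟩ : ∃ τ : ℝ, τ = w * μ / (2 * (η + 1)) := ⟨_, rfl⟩
  have hτ0 : 0 < τ := by rw [hτ]; positivity
  have hτη : τ * (η + 1) = w * μ / 2 := by
    rw [hτ]
    field_simp
  have hτ1 : τ ≤ 1 := by
    rw [hτ, div_le_one (by positivity)]
    nlinarith
  obtain ⟨c, hc, hchb⟩ := h1 τ hτ0
  have hexp : η * (1 - τ) = (G * θ + τ) + w * μ / 2 := by
    have h3 : η * (1 - τ) = η - (τ * (η + 1) - τ) := by ring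
    rw [h3, hτη]
    linarith
  obtain ⟨B, hB⟩ : ∃ B : ℝ, B = ((q : ℝ) ^ q) ^ n := ⟨_, rfl⟩
  have hB1 : 1 ≤ B := by
    rw [hB]
    exact one_le_pow₀ (one_le_pow₀ (by linarith))
  obtain ⟨T, hT⟩ : ∃ T : ℝ, T = 1 / (τ * Real.log 2) := ⟨_, rfl⟩
  have hlog2 : 0 < Real.log 2 := Real.log_pos (by norm_num)
  have hT0 : 0 < T := by rw [hT]; positivity
  have hLB : 0 ≤ Real.logb 2 B := Real.logb_nonneg (by norm_num) hB1
  obtain ⟨M, hM⟩ : ∃ M : ℝ, M = T + |C| * B ^ θ * (Real.logb 2 B + G * T) := ⟨_, rfl⟩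
  have hwμ : 0 < w * μ / 2 := by positivity
  obtain ⟨c', hc'⟩ : ∃ c' : ℝ, c' = c * (2⁻¹ : ℝ) ^ (1 - τ) := ⟨_, rfl⟩
  have hc'0 : 0 < c' := by rw [hc']; positivity
  have hev : ∀ᶠ d : ℝ in atTop, 1 ≤ d ∧ 2 ≤ d ^ η ∧ B ^ κ ≤ d ^ (ε / 2) ∧
      M / c' + 1 ≤ d ^ (w * μ / 2) := by
    filter_upwards [eventually_ge_atTop (1 : ℝ),
      (tendsto_rpow_atTop hηp).eventually_ge_atTop 2,
      (tendsto_rpow_atTop (half_pos hε)).eventually_ge_atTop (B ^ κ),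
      (tendsto_rpow_atTop hwμ).eventually_ge_atTop (M / c' + 1)] with d a1 a2 a3 a4
    exact ⟨a1, a2, a3, a4⟩
  obtain ⟨D₀, hD₀⟩ := eventually_atTop.mp hev
  refine ⟨D₀, ?_⟩
  intro K hNF hK hDK
  by_contra hcon
  rw [not_le] at hcon
  obtain ⟨d, hd⟩ : ∃ d : ℝ, d = D K := ⟨_, rfl⟩
  obtain ⟨a1, a2, a3, a4⟩ := hD₀ (D K) hDK
  rw [← hd] at a1 a2 a3 a4 hcon
  have hd0 : 0 < d := by linarith
  obtain ⟨Z, hZ⟩ : ∃ Z : ℕ, Z = ⌊d ^ η⌋₊ := ⟨_, rfl⟩
  have hZ2 : 2 ≤ Z := by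
    rw [hZ]
    exact Nat.le_floor (by exact_mod_cast a2)
  have hZle : (Z : ℝ) ≤ d ^ η := by
    rw [hZ]
    exact Nat.floor_le (by positivity)
  have hZ2r : (2 : ℝ) ≤ Z := by exact_mod_cast hZ2
  have hZge : 2⁻¹ * d ^ η ≤ Z := by
    have h3 : d ^ η < Z + 1 := by
      rw [hZ]
      exact Nat.lt_floor_add_one _
    linarith
  obtain ⟨Y, hY⟩ : ∃ Y : ℝ, Y = d ^ q * ((q : ℝ) ^ q * (Z : ℝ) ^ (q - 1)) ^ n := ⟨_, rfl⟩
  have hY1 : 1 ≤ Y := by
    rw [hY]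
    refine one_le_mul_of_one_le_of_one_le (one_le_pow₀ a1) (one_le_pow₀ ?_)
    exact one_le_mul_of_one_le_of_one_le (one_le_pow₀ (by linarith)) (one_le_pow₀ (by linarith))
  have hYle : Y ≤ B * d ^ G := by
    have h3 : d ^ G = d ^ q * (((d ^ η) ^ (q - 1)) ^ n) := by
      rw [← pow_mul, ← Real.rpow_natCast (d ^ η), ← Real.rpow_mul hd0.le, ← Real.rpow_natCast d q,
        ← Real.rpow_add hd0]
      congr 1
      rw [hG]
      have h4 : (((q - 1) * n : ℕ) : ℝ) = ((q : ℝ) - 1) * n := by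
        rw [Nat.cast_mul, Nat.cast_sub hq.one_lt.le, Nat.cast_one]
      rw [h4]
      ring
    rw [hY, h3, hB, mul_pow]
    have h5 : ((Z : ℝ) ^ (q - 1)) ^ n ≤ ((d ^ η) ^ (q - 1)) ^ n := by gcongr
    calc d ^ q * (((q : ℝ) ^ q) ^ n * ((Z : ℝ) ^ (q - 1)) ^ n)
        = ((q : ℝ) ^ q) ^ n * d ^ q * ((Z : ℝ) ^ (q - 1)) ^ n := by ring
      _ ≤ ((q : ℝ) ^ q) ^ n * d ^ q * ((d ^ η) ^ (q - 1)) ^ n :=
          mul_le_mul_of_nonneg_left h5 (by positivity)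
      _ = _ := by ring
  have hY0 : 0 ≤ Y := by linarith
  have hBd : 0 < B * d ^ G := by positivity
  have hYκ : Y ^ κ < tors K ℓ := by
    refine lt_of_le_of_lt ?_ hcon
    calc Y ^ κ ≤ (B * d ^ G) ^ κ := Real.rpow_le_rpow hY0 hYle hκ0
      _ = B ^ κ * d ^ (E0 + ε / 2) := by
          rw [Real.mul_rpow (by positivity) (by positivity), ← Real.rpow_mul hd0.le, hGκ]
      _ ≤ d ^ (ε / 2) * d ^ (E0 + ε / 2) := mul_le_mul_of_nonneg_right a3 (by positivity)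
      _ = d ^ (E0 + ε) := by
          rw [← Real.rpow_add hd0]
          congr 1
          ring
  have hcnt := h2 K hNF n q ℓ Z κ Y hK hq hcop hZ2 hκ0 (by rw [← hd, hY]) hYκ
  rw [← hd] at hcnt
  have hchbZ := hchb Z hZ2
  have hCY := hC Y hY1
  have hlogY0 : 0 ≤ Real.logb 2 Y := Real.logb_nonneg (by norm_num) hY1
  have hlogY : Real.logb 2 Y ≤ Real.logb 2 B + G * Real.logb 2 d := by
    calc Real.logb 2 Y ≤ Real.logb 2 (B * d ^ G) :=
          Real.logb_le_logb_of_le (by norm_num) (by linarith) hYle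
      _ = Real.logb 2 B + G * Real.logb 2 d := by
          rw [Real.logb_mul (by positivity) (by positivity), Real.logb_rpow_eq_mul_logb_of_pos hd0]
  have hYθ : Y ^ θ ≤ B ^ θ * d ^ (G * θ) := by
    calc Y ^ θ ≤ (B * d ^ G) ^ θ := Real.rpow_le_rpow hY0 hYle hθ
      _ = B ^ θ * d ^ (G * θ) := by
          rw [Real.mul_rpow (by positivity) (by positivity), ← Real.rpow_mul hd0.le]
  have hlogd : Real.logb 2 d ≤ T * d ^ τ := by
    rw [Real.logb, div_le_iff₀ hlog2]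
    have h3 := Real.log_le_rpow_div hd0.le hτ0
    refine h3.trans (le_of_eq ?_)
    rw [hT]
    field_simp
  have hlogd0 : 0 ≤ Real.logb 2 d := Real.logb_nonneg (by norm_num) a1
  have hdτ : 1 ≤ d ^ τ := Real.one_le_rpow a1 hτ0.le
  have hdG : 1 ≤ d ^ (G * θ) := Real.one_le_rpow a1 (by positivity)
  have hncard : ((exc (q * n) ℓ κ Y).ncard : ℝ) * Real.logb 2 Y ≤
      |C| * B ^ θ * (Real.logb 2 B + G * T) * (d ^ (G * θ) * d ^ τ) := by
    have h3 : ((exc (q * n) ℓ κ Y).ncard : ℝ) ≤ |C| * (B ^ θ * d ^ (G * θ)) :=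
      hCY.trans ((mul_le_mul_of_nonneg_right (le_abs_self C) (by positivity)).trans
        (mul_le_mul_of_nonneg_left hYθ (abs_nonneg C)))
    have h4 : Real.logb 2 Y ≤ (Real.logb 2 B + G * T) * d ^ τ := by
      refine hlogY.trans ?_
      have h5 : Real.logb 2 B ≤ Real.logb 2 B * d ^ τ := le_mul_of_one_le_right hLB hdτ
      have h6 : G * Real.logb 2 d ≤ G * (T * d ^ τ) := mul_le_mul_of_nonneg_left hlogd hGp.le
      nlinarith
    calc ((exc (q * n) ℓ κ Y).ncard : ℝ) * Real.logb 2 Y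
        ≤ (|C| * (B ^ θ * d ^ (G * θ))) * ((Real.logb 2 B + G * T) * d ^ τ) :=
          mul_le_mul h3 h4 hlogY0 (by positivity)
      _ = _ := by ring
  have hup : (Finset.card ((Finset.range (Z + 1)).filter Nat.Prime) : ℝ) ≤
      M * (d ^ (G * θ) * d ^ τ) := by
    refine hcnt.trans ?_
    have h3 : Real.logb 2 d ≤ T * (d ^ (G * θ) * d ^ τ) := by
      refine hlogd.trans (mul_le_mul_of_nonneg_left ?_ hT0.le)
      exact le_mul_of_one_le_left (by positivity) hdG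
    rw [hM]
    linarith
  have hlow : c' * (d ^ (G * θ) * d ^ τ * d ^ (w * μ / 2)) ≤
      (Finset.card ((Finset.range (Z + 1)).filter Nat.Prime) : ℝ) := by
    refine le_trans ?_ hchbZ
    have h3 : (2⁻¹ : ℝ) ^ (1 - τ) * d ^ (η * (1 - τ)) ≤ (Z : ℝ) ^ (1 - τ) := by
      rw [Real.rpow_mul hd0.le, ← Real.mul_rpow (by positivity) (by positivity)]
      exact Real.rpow_le_rpow (by positivity) hZge (by linarith)
    rw [hexp, Real.rpow_add hd0, Real.rpow_add hd0] at h3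
    rw [hc', mul_assoc]
    exact mul_le_mul_of_nonneg_left h3 hc.le
  have hpos : 0 < d ^ (G * θ) * d ^ τ := by positivity
  have hfin : M < c' * d ^ (w * μ / 2) := by
    have h3 : M / c' < d ^ (w * μ / 2) := by linarith
    rw [div_lt_iff₀ hc'0] at h3
    linarith
  have h4 := mul_lt_mul_of_pos_right hfin hpos
  have h5 := hlow.trans hup
  linarith

end Pool.Agent.W929.TL
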